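import Mathlib
import Pool.Agent.V11316.RG2

/-!
# Linear equations in pairwise different regular indices, for every prime

Call `m ≥ 1`, `m ≤ (p - 3) / 2`, a regular index of the prime `p` if `p` does not divide the numerator
of the Bernoulli number `B_{2m}`; an odd prime is regular if all its indices are.

For all positive integers `a_1, ..., a_k` (also for `k = 0`) the equation
`x + y + a_1 z_1 + ... + a_k z_k = N` has, for EVERY prime `p` and every large `N ≤ (p - 3) / 2`, at least
`c N ^ ((3 k + 2) / 4)` solutions in pairwise different regular indices of `p`, where `c > 0` and the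
bound for `N` depend only on the coefficients.

Compared with the result `ThreeRegularIndices` of this problem (equal coefficients `1`, summands which
may be equal or `0`) there is no exceptional prime, the coefficients are arbitrary, the summands are
different, and for three summands the exponent is `5/4` instead of `1`.

Method.  The last two summands come from the theorem on sums of two regular indices
(`Pool/Agent/Y374/RP/Star2.lean`: at least `√(M / 6)` ways for every `M`, every prime), the others from the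
lower bound `K ^ (3/4) / 32` for the number of the regular indices up to `K`
(`Pool/Agent/TH10/RP/Final.lean`); tuples with equal entries are removed by counting
(`Pool/Agent/V11316/RG1.lean`).
-/

set_option autoImplicit false

namespace Pool.Agent.Results.MP_a3a416_nt.DistinctWithCoefficients

/-- `m ≥ 1` and `p` does not divide the numerator of the Bernoulli number `B_{2m}` -/
def Regular (p m : ℕ) : Prop := 1 ≤ m ∧ ¬ ((p : ℤ) ∣ (bernoulli (2 * m)).num)

/-- the solutions `(x, y, z)` of `x + y + ∑ i, a i * z i = N` in pairwise different regular indices -/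
def Solutions (p : ℕ) {k : ℕ} (a : Fin k → ℕ) (N : ℕ) : Set (ℕ × ℕ × (Fin k → ℕ)) :=
  {s | (Regular p s.1 ∧ Regular p s.2.1 ∧ ∀ i, Regular p (s.2.2 i)) ∧
    (s.1 ≠ s.2.1 ∧ Function.Injective s.2.2 ∧ ∀ i, s.2.2 i ≠ s.1 ∧ s.2.2 i ≠ s.2.1) ∧
    s.1 + s.2.1 + ∑ i, a i * s.2.2 i = N}

/-- For all positive integers `a 0, ..., a (k - 1)` there are `c > 0` and `N₀` such that for every
prime `p` and every `N`, `N₀ ≤ N ≤ (p - 3) / 2`, the equation `x + y + ∑ i, a i * z i = N` has at least
`c N ^ ((3 k + 2) / 4)` solutions in pairwise different regular indices. -/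
theorem result (k : ℕ) (a : Fin k → ℕ) (ha : ∀ i, 1 ≤ a i) :
    ∃ c : ℝ, 0 < c ∧ ∃ N₀ : ℕ, ∀ p : ℕ, p.Prime → ∀ N : ℕ, N₀ ≤ N → 2 * N + 3 ≤ p →
      (Solutions p a N).Finite ∧
      c * (N : ℝ) ^ ((3 * k + 2 : ℝ) / 4) ≤ ((Solutions p a N).ncard : ℝ) := by
  classical
  obtain ⟨c, hc, N₀, h⟩ := Pool.Agent.V11316.RG.general k a ha (1 / 32) (3 / 4) (by norm_num)
    (by norm_num) 0
  refine ⟨c, hc, N₀, fun p hp N hN hNp => ?_⟩
  have h1 := h p hp (fun _ _ => True) (by
    intro i K _ hK
    refine ⟨(Finset.Icc 1 K).filter (fun m : ℕ => ¬ ((p : ℤ) ∣ (bernoulli (2 * m)).num)), ?_, ?_⟩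
    · have h2 := Pool.Agent.V11316.RG.num_reg p hp K hK
      have e : (1 / 32 : ℝ) * (K : ℝ) ^ ((3 : ℝ) / 4) = (K : ℝ) ^ ((3 : ℝ) / 4) / 32 := by ring
      rw [e]
      exact h2
    · intro m hm
      rw [Finset.mem_filter, Finset.mem_Icc] at hm
      exact ⟨hm.1.2, ⟨hm.1.1, hm.2⟩, trivial⟩) N hN hNp
  have hS : Solutions p a N =
      ((Pool.Agent.V11316.RG.Sol (Pool.Agent.V11316.RG.Reg p) a (fun _ _ => True) N :
        Finset (ℕ × ℕ × (Fin k → ℕ))) : Set (ℕ × ℕ × (Fin k → ℕ))) := by
    ext s
    unfold Pool.Agent.V11316.RG.Sol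
    simp only [Solutions, Set.mem_ofPred_eq, Finset.coe_filter, Finset.mem_product,
      Finset.mem_range, Fintype.mem_piFinset, and_true]
    constructor
    · rintro ⟨h2, h3, h4⟩
      refine ⟨⟨by omega, by omega, fun i => ?_⟩, h2, h3, h4⟩
      have h5 : a i * s.2.2 i ≤ ∑ i, a i * s.2.2 i := Finset.single_le_sum
        (f := fun i => a i * s.2.2 i) (fun _ _ => Nat.zero_le _) (Finset.mem_univ i)
      have h6 : 1 * s.2.2 i ≤ a i * s.2.2 i := Nat.mul_le_mul_right _ (ha i)
      omega
    · rintro ⟨_, h2, h3, h4⟩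
      exact ⟨h2, h3, h4⟩
  rw [hS, Set.ncard_coe_finset]
  refine ⟨Finset.finite_toSet _, ?_⟩
  have e : ((3 * k + 2 : ℝ) / 4) = (k : ℝ) * (3 / 4) + 1 / 2 := by ring
  rw [e]
  exact h1

end Pool.Agent.Results.MP_a3a416_nt.DistinctWithCoefficients
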