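import Mathlib
import Pool.Agent.V11316.RG3

/-!
# Sums of `h` regular indices of almost equal size, for every prime and every `h`

Call `m ≥ 1`, `m ≤ (p - 3) / 2`, a regular index of the prime `p` if `p` does not divide the numerator
of the Bernoulli number `B_{2m}`; an odd prime is regular if all its indices are.

Let `p` be any prime and `N ≤ (p - 3) / 2`.

* For EVERY `h` with `2 ≤ h ≤ N` the number `N` is a sum of `h` regular indices the largest of which is
  at most three times the smallest.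
* For a fixed `h ≥ 2`, `ε > 0` and large `N` the quotients of the summands are at most `2 + ε`.
* All but two of the summands can be chosen in prescribed short intervals: if
  `2 u_i ≤ (r_i + 1) (2 r_i + 1)`, `r_i ≥ 1` (so `r_i` is about `√(u_i)`) and `∑ (u_i + r_i) + 2 ≤ N` then `N`
  is a sum of regular indices `z_i` with `u_i < z_i ≤ u_i + r_i` and of two more regular indices, both at
  least one third of their sum.

Method.  Every `M ≥ 2` is a sum of two regular indices which are at least `M / 3`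
(`Pool/Agent/Y374/RP/Star2.lean`).  In a sum of `h` regular indices with quotients at most `3` the largest
summand `M` is replaced by two such summands; the new summands lie between `M / 3` and `M` as all
the others do. The other parts use the bound for the runs of irregular indices
(`Pool/Agent/H332R2/Window.lean`).
-/

set_option autoImplicit false

namespace Pool.Agent.Results.MP_a3a416_nt.NearlyEqualSummands

/-- `m ≥ 1` and `p` does not divide the numerator of the Bernoulli number `B_{2m}` -/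
def Regular (p m : ℕ) : Prop := 1 ≤ m ∧ ¬ ((p : ℤ) ∣ (bernoulli (2 * m)).num)

/-- 1. Let `p` be a prime and `N ≤ (p - 3) / 2`. For every `h`, `2 ≤ h ≤ N`, there is a multiset of `h`
  regular indices with sum `N` and with `x ≤ 3 y` for any two of its members `x`, `y`.
2. For every `h ≥ 2` and `ε > 0` there is `N₀` such that for every prime `p` and `N₀ ≤ N ≤ (p - 3) / 2`
  there is a multiset of `h` regular indices with sum `N` and with `x ≤ (2 + ε) y` for any two of its
  members.
3. Let `p` be a prime, `N ≤ (p - 3) / 2`, `r i ≥ 1`, `2 u i ≤ (r i + 1) (2 r i + 1)` for `i < k` and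
  `∑ i, (u i + r i) + 2 ≤ N`. Then there are regular indices `z i` with `u i < z i ≤ u i + r i` and regular indices `x`, `y` with
  `x + y + ∑ i, z i = N` and `x + y ≤ 3 x`, `x + y ≤ 3 y`. -/
theorem result :
    (∀ p : ℕ, p.Prime → ∀ N : ℕ, 2 * N + 3 ≤ p → ∀ h : ℕ, 2 ≤ h → h ≤ N →
      ∃ s : Multiset ℕ, s.card = h ∧ s.sum = N ∧ (∀ x ∈ s, Regular p x) ∧
        ∀ x ∈ s, ∀ y ∈ s, x ≤ 3 * y) ∧
    (∀ h : ℕ, 2 ≤ h → ∀ ε : ℝ, 0 < ε → ∃ N₀ : ℕ, ∀ p : ℕ, p.Prime → ∀ N : ℕ,
      N₀ ≤ N → 2 * N + 3 ≤ p →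
      ∃ s : Multiset ℕ, s.card = h ∧ s.sum = N ∧ (∀ x ∈ s, Regular p x) ∧
        ∀ x ∈ s, ∀ y ∈ s, (x : ℝ) ≤ (2 + ε) * y) ∧
    (∀ p : ℕ, p.Prime → ∀ N : ℕ, 2 * N + 3 ≤ p →
      ∀ (k : ℕ) (u r : Fin k → ℕ), (∀ i, 1 ≤ r i) →
      (∀ i, 2 * u i ≤ (r i + 1) * (2 * r i + 1)) → ∑ i, (u i + r i) + 2 ≤ N →
      ∃ (z : Fin k → ℕ) (x y : ℕ), (∀ i, u i < z i ∧ z i ≤ u i + r i ∧ Regular p (z i)) ∧
        Regular p x ∧ Regular p y ∧ x + y + ∑ i, z i = N ∧ x + y ≤ 3 * x ∧ x + y ≤ 3 * y) :=
  ⟨fun p hp N hN h h2 hhN => Pool.Agent.V11316.RG.nearly_equal p hp N hN h h2 hhN,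
    fun h h2 ε hε => Pool.Agent.V11316.RG.almost_two h h2 ε hε,
    fun p hp N hN k u r hr hu hs => Pool.Agent.V11316.RG.prescribed p hp N hN k u r hr hu hs⟩

end Pool.Agent.Results.MP_a3a416_nt.NearlyEqualSummands
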