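import Mathlib
import Pool.Agent.Y374.RP.Star2

/-!
# The number of regular indices of every prime, up to `K` and in windows

Call `m`, `1 ≤ m ≤ (p - 3) / 2`, a regular index of the prime `p` if `p` does not divide the
numerator of the Bernoulli number `B_{2m}`; an odd prime is regular if all its indices are.
For a prime `p`, `K ≤ (p - 3) / 2` and `V ≥ 0` let `s` be the number of the regular indices `m` with
`V < m < K - V`.

* For `V = 0`: `64 K³ ≤ 3 (12 s² + 5 K + 2)²`, that is `s² ≥ 0.3849 K ^ (3/2) - 0.4167 K - 0.17`, so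
  EVERY prime has at least `(0.62 - o(1)) K ^ (3/4)` regular indices below `K`.  (The starting result
  `ManyRegularInClasses` gives `√K - 2`.)
* For `8 V ≤ K`: `K³ ≤ 64 s⁴ + 32 V K s²`, that is `s ≥ c min (K ^ (3/4), K / √V)`.

Proof: by the theorem on sums of two regular indices (`Pool/Agent/Y374/RP/Star2.lean`) the number `r`
of the representations of `N ≤ K` as a sum of two regular indices larger than `V` satisfies
`2 (N - V) ≤ (2 r + 1) (4 V + 3 r + 1)`; the sum over `N ≤ K` counts pairs of indices of the window.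
-/

set_option autoImplicit false

namespace Pool.Agent.Results.MP_a3a416_nt.RegularIndexCount

open Finset

lemma sum_sqrt (K : ℕ) : 2 / 3 * (Real.sqrt K) ^ 3 ≤ ∑ N ∈ range (K + 1), Real.sqrt (N : ℝ) := by
  induction K with
  | zero => simp
  | succ K ih =>
    rw [sum_range_succ]
    set a := Real.sqrt (K : ℝ) with ha
    set b := Real.sqrt ((K + 1 : ℕ) : ℝ) with hb
    have ha0 : 0 ≤ a := Real.sqrt_nonneg _
    have hb0 : 0 ≤ b := Real.sqrt_nonneg _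
    have ha2 : a ^ 2 = K := Real.sq_sqrt (Nat.cast_nonneg _)
    have hb2 : b ^ 2 = K + 1 := by
      rw [hb, Real.sq_sqrt (Nat.cast_nonneg _)]
      push_cast
      ring
    have h1 : 0 ≤ (b - a) ^ 2 * (b + 2 * a) := by positivity
    have h2 : (b - a) ^ 2 * (b + 2 * a) = 2 * a ^ 3 - 2 * b ^ 3 + 3 * b * (b ^ 2 - a ^ 2) := by ring
    have h3 : b ^ 2 - a ^ 2 = 1 := by rw [ha2, hb2]; ring
    rw [h2, h3] at h1
    linarith

/-- the regular indices in the window `(V, K - V)` -/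
noncomputable def win (p K V : ℕ) : Finset ℕ :=
  (Finset.Ioo V (K - V)).filter (fun m : ℕ => ¬ ((p : ℤ) ∣ (bernoulli (2 * m)).num))

/-- pairs -/
lemma pairs (p : ℕ) [Fact p.Prime] (K V : ℕ) (hK : 2 * K + 3 ≤ p) (T : Finset ℕ)
    (hT : ∀ N ∈ T, N ≤ K) :
    ∑ N ∈ T, (Pool.Agent.Y374.RP.JJ p N V).card ≤ (win p K V).card ^ 2 := by
  classical
  rw [← card_sigma, sq, ← card_product]
  apply card_le_card_of_injOn (fun x : (Σ _ : ℕ, ℕ) => (x.2, x.1 - x.2))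
  · rintro ⟨N, i⟩ hx
    rw [mem_coe, mem_sigma] at hx
    obtain ⟨h1, h2⟩ := hx
    simp only at h1 h2
    rw [Pool.Agent.Y374.RP.mem_JJ] at h2
    obtain ⟨⟨h3, h4⟩, h5⟩ := h2
    have hNK := hT N h1
    have h6 := (Pool.Agent.TH10.RP.ww_iff p N i (by omega) (by omega)).1 h5
    rw [mem_coe, mem_product, win, mem_filter, mem_filter, mem_Ioo, mem_Ioo]
    exact ⟨⟨⟨h3, by simp only; omega⟩, h6.1⟩, ⟨⟨by simp only; omega, by simp only; omega⟩, h6.2⟩⟩
  · rintro ⟨N, i⟩ hx ⟨N', i'⟩ hx' heq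
    rw [mem_coe, mem_sigma] at hx hx'
    simp only [Prod.mk.injEq] at heq
    obtain ⟨h1, h2⟩ := heq
    simp only at hx hx' h1 h2
    rw [Pool.Agent.Y374.RP.mem_JJ] at hx hx'
    have h8 : N = N' := by omega
    subst h1
    subst h8
    rfl

lemma sqrt_bound (x r : ℝ) (hx : 0 ≤ x) (hr : 0 ≤ r) (h : 2 * x ≤ (2 * r + 1) * (3 * r + 1)) :
    Real.sqrt 48 * Real.sqrt x ≤ 12 * r + 5 := by
  rw [← Real.sqrt_mul (by norm_num)]
  apply Real.sqrt_le_iff.2
  refine ⟨by positivity, ?_⟩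
  nlinarith

lemma prefix_count (p : ℕ) [Fact p.Prime] (K : ℕ) (hK : 2 * K + 3 ≤ p) :
    64 * K ^ 3 ≤ 3 * (12 * (win p K 0).card ^ 2 + 5 * K + 2) ^ 2 := by
  classical
  set s := (win p K 0).card with hs
  have h1 := pairs p K 0 hK (Finset.Ioc 1 K) (fun N hN => (mem_Ioc.1 hN).2)
  have h2 : ∀ N ∈ Finset.Ioc 1 K, Real.sqrt 48 * Real.sqrt (N : ℝ) - 5 ≤
      12 * ((Pool.Agent.Y374.RP.JJ p N 0).card : ℝ) := by
    intro N hN
    rw [mem_Ioc] at hN
    have h3 := Pool.Agent.Y374.RP.star p N 0 (by omega) (by omega) (by omega)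
    have h4 := sqrt_bound (N : ℝ) ((Pool.Agent.Y374.RP.JJ p N 0).card : ℝ) (Nat.cast_nonneg _)
      (Nat.cast_nonneg _) (by
        have : 2 * N ≤ (2 * (Pool.Agent.Y374.RP.JJ p N 0).card + 1) *
          (3 * (Pool.Agent.Y374.RP.JJ p N 0).card + 1) := by simpa using h3
        exact_mod_cast this)
    linarith
  have h3 : ∑ N ∈ Finset.Ioc 1 K, (Real.sqrt 48 * Real.sqrt (N : ℝ) - 5) ≤ 12 * (s : ℝ) ^ 2 := by
    calc ∑ N ∈ Finset.Ioc 1 K, (Real.sqrt 48 * Real.sqrt (N : ℝ) - 5)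
        ≤ ∑ N ∈ Finset.Ioc 1 K, 12 * ((Pool.Agent.Y374.RP.JJ p N 0).card : ℝ) := sum_le_sum h2
      _ = 12 * ((∑ N ∈ Finset.Ioc 1 K, (Pool.Agent.Y374.RP.JJ p N 0).card : ℕ) : ℝ) := by
          rw [← mul_sum]; push_cast; rfl
      _ ≤ 12 * ((s ^ 2 : ℕ) : ℝ) := by
          apply mul_le_mul_of_nonneg_left _ (by norm_num)
          exact_mod_cast h1
      _ = 12 * (s : ℝ) ^ 2 := by push_cast; ring
  rw [sum_sub_distrib, ← mul_sum, sum_const, Nat.card_Ioc, nsmul_eq_mul] at h3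
  have h4 : 2 / 3 * (Real.sqrt K) ^ 3 - 1 ≤ ∑ N ∈ Finset.Ioc 1 K, Real.sqrt (N : ℝ) := by
    have h5 := sum_sqrt K
    have h6 : ∑ N ∈ range (K + 1), Real.sqrt (N : ℝ) ≤
        1 + ∑ N ∈ Finset.Ioc 1 K, Real.sqrt (N : ℝ) := by
      have h7 : range (K + 1) ⊆ {0, 1} ∪ Finset.Ioc 1 K := by
        intro x hx
        rw [mem_range] at hx
        rw [mem_union, mem_insert, mem_singleton, mem_Ioc]
        omega
      have h8 : Disjoint ({0, 1} : Finset ℕ) (Finset.Ioc 1 K) := by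
        rw [disjoint_left]
        intro x hx hx'
        rw [mem_insert, mem_singleton] at hx
        rw [mem_Ioc] at hx'
        omega
      calc ∑ N ∈ range (K + 1), Real.sqrt (N : ℝ)
          ≤ ∑ N ∈ {0, 1} ∪ Finset.Ioc 1 K, Real.sqrt (N : ℝ) :=
            sum_le_sum_of_subset_of_nonneg h7 (fun _ _ _ => Real.sqrt_nonneg _)
        _ = 1 + ∑ N ∈ Finset.Ioc 1 K, Real.sqrt (N : ℝ) := by
            rw [sum_union h8]
            simp
    linarith
  have h48 : Real.sqrt 48 = 4 * Real.sqrt 3 := by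
    rw [show (48 : ℝ) = 4 ^ 2 * 3 by norm_num, Real.sqrt_mul (by norm_num),
      Real.sqrt_sq (by norm_num)]
  set q := Real.sqrt 3 with hq
  have hq0 : 0 ≤ q := Real.sqrt_nonneg _
  have hq2 : q ^ 2 = 3 := Real.sq_sqrt (by norm_num)
  have hq3 : q ≤ 7 / 4 := by nlinarith
  set k := Real.sqrt (K : ℝ) with hk
  have hk0 : 0 ≤ k := Real.sqrt_nonneg _
  have hk2 : k ^ 2 = K := Real.sq_sqrt (Nat.cast_nonneg _)
  have hK1 : (((K - 1 : ℕ) : ℝ)) ≤ K := by exact_mod_cast Nat.sub_le K 1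
  have hK2 : (K : ℝ) - 1 ≤ ((K - 1 : ℕ) : ℝ) := by
    have : K ≤ (K - 1) + 1 := by omega
    have h : (K : ℝ) ≤ ((K - 1 : ℕ) : ℝ) + 1 := by exact_mod_cast this
    linarith
  have hK3 : K = 0 ∨ (((K - 1 : ℕ) : ℝ)) = (K : ℝ) - 1 := by
    rcases Nat.eq_zero_or_pos K with h | h
    · exact Or.inl h
    · right
      rw [Nat.cast_sub h]
      norm_num
  rcases hK3 with h0 | hK3
  · rw [h0]
    simp
  rw [hK3, h48] at h3
  have h9 : 8 / 3 * q * k ^ 3 ≤ 12 * (s : ℝ) ^ 2 + 5 * K + 2 := by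
    have h10 : 4 * q * (2 / 3 * k ^ 3 - 1) ≤ 4 * q * ∑ N ∈ Finset.Ioc 1 K, Real.sqrt (N : ℝ) :=
      mul_le_mul_of_nonneg_left h4 (by positivity)
    nlinarith
  have h11 : (8 / 3 * q * k ^ 3) ^ 2 ≤ (12 * (s : ℝ) ^ 2 + 5 * K + 2) ^ 2 :=
    pow_le_pow_left₀ (by positivity) h9 2
  have h12 : (8 / 3 * q * k ^ 3) ^ 2 = 64 / 3 * (K : ℝ) ^ 3 := by
    calc (8 / 3 * q * k ^ 3) ^ 2 = 64 / 9 * q ^ 2 * (k ^ 2) ^ 3 := by ring
      _ = 64 / 3 * (K : ℝ) ^ 3 := by rw [hq2, hk2]; ring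
  rw [h12] at h11
  have h13 : (64 : ℝ) * (K : ℝ) ^ 3 ≤ 3 * (12 * (s : ℝ) ^ 2 + 5 * K + 2) ^ 2 := by linarith
  exact_mod_cast h13

lemma window_count (p : ℕ) [Fact p.Prime] (K V : ℕ) (hK : 2 * K + 3 ≤ p) (hK2 : 2 ≤ K)
    (hV : 8 * V ≤ K) :
    K ^ 3 ≤ 64 * (win p K V).card ^ 4 + 32 * V * K * (win p K V).card ^ 2 := by
  classical
  set s := (win p K V).card with hs
  have h1 := pairs p K V hK (Finset.Ioc (K / 2) K) (fun N hN => (mem_Ioc.1 hN).2)
  -- the least number of representations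
  obtain ⟨M, hM, hmin⟩ := exists_min_image (Finset.Ioc (K / 2) K)
    (fun N => (Pool.Agent.Y374.RP.JJ p N V).card) ⟨K, mem_Ioc.2 ⟨by omega, le_rfl⟩⟩
  rw [mem_Ioc] at hM
  set r := (Pool.Agent.Y374.RP.JJ p M V).card with hr
  have h2 : (K - K / 2) * r ≤ s ^ 2 := by
    refine le_trans ?_ h1
    have h3 := card_nsmul_le_sum (Finset.Ioc (K / 2) K)
      (fun N => (Pool.Agent.Y374.RP.JJ p N V).card) r hmin
    rwa [Nat.card_Ioc, smul_eq_mul] at h3
  have h3 : K * r ≤ 2 * s ^ 2 := by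
    have : K * r ≤ 2 * ((K - K / 2) * r) := by
      rw [← mul_assoc]
      apply Nat.mul_le_mul_right
      omega
    omega
  have h4 := Pool.Agent.Y374.RP.star p M V (by omega) (by omega) (by omega)
  rw [← hr] at h4
  have hr1 : 1 ≤ r := by
    by_contra hcon
    have : r = 0 := by omega
    rw [this] at h4
    omega
  have h5 : 2 * (M - V) ≤ 12 * (r * (V + r)) := by
    have h6 : (2 * r + 1) * (4 * V + 3 * r + 1) ≤ (3 * r) * (4 * V + 4 * r) :=
      Nat.mul_le_mul (by omega) (by omega)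
    have h7 : (3 * r) * (4 * V + 4 * r) = 12 * (r * (V + r)) := by ring
    omega
  have h6 : K ≤ 16 * (r * (V + r)) := by omega
  -- multiply out
  have h7 : K ^ 3 ≤ 16 * (K * r) * (V * K + K * r) := by
    calc K ^ 3 = K * K ^ 2 := by ring
      _ ≤ 16 * (r * (V + r)) * K ^ 2 := Nat.mul_le_mul_right _ h6
      _ = 16 * (K * r) * (V * K + K * r) := by ring
  calc K ^ 3 ≤ 16 * (K * r) * (V * K + K * r) := h7
    _ ≤ 16 * (2 * s ^ 2) * (V * K + 2 * s ^ 2) :=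
        Nat.mul_le_mul (Nat.mul_le_mul_left _ h3) (Nat.add_le_add_left h3 _)
    _ = 64 * s ^ 4 + 32 * V * K * s ^ 2 := by ring

/-- Let `p` be a prime, `K ≤ (p - 3) / 2` and let `s` be the number of the `m`, `V < m < K - V`, such
that `p` does not divide the numerator of the Bernoulli number `B_{2m}`.  If `V = 0` then
`64 K³ ≤ 3 (12 s² + 5 K + 2)²`, and if `8 V ≤ K`, `2 ≤ K`, then `K³ ≤ 64 s⁴ + 32 V K s²`. -/
theorem result (p : ℕ) (hp : p.Prime) (K : ℕ) (hK : 2 * K + 3 ≤ p) (V s : ℕ)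
    (hs : s = ((Finset.Ioo V (K - V)).filter
      (fun m : ℕ => ¬ ((p : ℤ) ∣ (bernoulli (2 * m)).num))).card) :
    (V = 0 → 64 * K ^ 3 ≤ 3 * (12 * s ^ 2 + 5 * K + 2) ^ 2) ∧
      (2 ≤ K → 8 * V ≤ K → K ^ 3 ≤ 64 * s ^ 4 + 32 * V * K * s ^ 2) := by
  have : Fact p.Prime := ⟨hp⟩
  subst hs
  constructor
  · rintro rfl
    exact prefix_count p K hK
  · intro h2 h8
    exact window_count p K V hK h2 h8

end Pool.Agent.Results.MP_a3a416_nt.RegularIndexCount
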