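import Mathlib
import Pool.Agent.V11316.RG2

/-!
# Sums of regular indices, all but two of them in prescribed residue classes

Call `m ≥ 1`, `m ≤ (p - 3) / 2`, a regular index of the prime `p` if `p` does not divide the numerator
of the Bernoulli number `B_{2m}`; an odd prime is regular if all its indices are.

Let `a_1, ..., a_k` be positive integers and `d_1, ..., d_k` moduli.  For every prime `p` with
`p > d_i ^ φ(2 d_i)` for all `i`, all residue classes `γ_i` modulo `d_i` and every large `N ≤ (p - 3) / 2`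
the equation `x + y + a_1 z_1 + ... + a_k z_k = N` has at least `c N ^ ((k + 1) / 2)` solutions in pairwise
different regular indices of `p` with `z_i ≡ γ_i mod d_i`; here `c > 0` and the bound for `N` depend
only on the coefficients and the moduli.

Method.  The last two summands come from the theorem on sums of two regular indices
(`Pool/Agent/Y374/RP/Star2.lean`), the others from the lower bound `2 ^ (1 - d) √K - 2` for the number of
the regular indices in a residue class (`Pool/Agent/TH350/RC/Main.lean`); tuples with equal entries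
are removed by counting (`Pool/Agent/V11316/RG1.lean`).
-/

set_option autoImplicit false

namespace Pool.Agent.Results.MP_a3a416_nt.SummandsInClasses

/-- `m ≥ 1` and `p` does not divide the numerator of the Bernoulli number `B_{2m}` -/
def Regular (p m : ℕ) : Prop := 1 ≤ m ∧ ¬ ((p : ℤ) ∣ (bernoulli (2 * m)).num)

/-- the solutions `(x, y, z)` of `x + y + ∑ i, a i * z i = N` in pairwise different regular indices
with `z i ≡ γ i mod d i` -/
def Solutions (p : ℕ) {k : ℕ} (a d : Fin k → ℕ) (γ : Fin k → ℤ) (N : ℕ) :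
    Set (ℕ × ℕ × (Fin k → ℕ)) :=
  {s | (Regular p s.1 ∧ Regular p s.2.1 ∧ ∀ i, Regular p (s.2.2 i) ∧ (s.2.2 i : ℤ) ≡ γ i [ZMOD d i]) ∧
    (s.1 ≠ s.2.1 ∧ Function.Injective s.2.2 ∧ ∀ i, s.2.2 i ≠ s.1 ∧ s.2.2 i ≠ s.2.1) ∧
    s.1 + s.2.1 + ∑ i, a i * s.2.2 i = N}

/-- For all positive integers `a 0, ..., a (k - 1)` and `d 0, ..., d (k - 1)` there are `c > 0` and
`N₀` such that for every prime `p` with `d i ^ φ(2 d i) < p` for all `i`, all integers `γ i` and every
`N`, `N₀ ≤ N ≤ (p - 3) / 2`, the equation `x + y + ∑ i, a i * z i = N` has at least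
`c N ^ ((k + 1) / 2)` solutions in pairwise different regular indices with `z i ≡ γ i mod d i`. -/
theorem result (k : ℕ) (a d : Fin k → ℕ) (ha : ∀ i, 1 ≤ a i) (hd : ∀ i, 1 ≤ d i) :
    ∃ c : ℝ, 0 < c ∧ ∃ N₀ : ℕ, ∀ p : ℕ, p.Prime → (∀ i, d i ^ Nat.totient (2 * d i) < p) →
      ∀ (γ : Fin k → ℤ) (N : ℕ), N₀ ≤ N → 2 * N + 3 ≤ p →
      (Solutions p a d γ N).Finite ∧
      c * (N : ℝ) ^ ((k + 1 : ℝ) / 2) ≤ ((Solutions p a d γ N).ncard : ℝ) := by
  classical
  set D : ℕ := ∑ i, d i with hD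
  have hdD : ∀ i, d i ≤ D := fun i => by
    rw [hD]
    exact Finset.single_le_sum (f := d) (fun _ _ => Nat.zero_le _) (Finset.mem_univ i)
  obtain ⟨c, hc, N₀, h⟩ := Pool.Agent.V11316.RG.general k a ha (1 / 2 ^ D) (1 / 2) (by positivity)
    (by norm_num) (4 ^ (D + 1))
  refine ⟨c, hc, N₀, fun p hp hdp γ N hN hNp => ?_⟩
  have h1 := h p hp (fun i m => (m : ℤ) ≡ γ i [ZMOD d i]) (by
    intro i K hKL hK
    refine ⟨(Finset.Icc 1 K).filter (fun m : ℕ => (m : ℤ) ≡ γ i [ZMOD d i] ∧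
      ¬ ((p : ℤ) ∣ (bernoulli (2 * m)).num)), ?_, ?_⟩
    · have h2 := Pool.Agent.V11316.RG.num_cls p (d i) hp (hd i) (hdp i) (γ i) K hK
      refine le_trans ?_ h2
      have hK4 : ((4 : ℝ)) ^ (D + 1) ≤ (K : ℝ) := by exact_mod_cast hKL
      have h3 : (2 : ℝ) ^ (D + 1) ≤ (K : ℝ) ^ ((1 : ℝ) / 2) := by
        rw [← Real.sqrt_eq_rpow]
        apply Real.le_sqrt_of_sq_le
        rw [← pow_mul, mul_comm (D + 1) 2, pow_mul]
        norm_num
        exact hK4
      have h4 : (2 : ℝ) ^ (d i - 1) * 2 ≤ 2 ^ D := by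
        rw [← pow_succ]
        apply pow_le_pow_right₀ (by norm_num)
        have := hd i
        have := hdD i
        omega
      have h5 : (0 : ℝ) < 2 ^ (d i - 1) := by positivity
      have h6 : (0 : ℝ) < 2 ^ D := by positivity
      have h7 : (2 : ℝ) ≤ (1 / 2 ^ D) * (K : ℝ) ^ ((1 : ℝ) / 2) := by
        rw [one_div, le_inv_mul_iff₀ h6, ← pow_succ]
        exact h3
      have h8 : 2 * ((1 / 2 ^ D) * (K : ℝ) ^ ((1 : ℝ) / 2)) ≤
          (K : ℝ) ^ ((1 : ℝ) / 2) / 2 ^ (d i - 1) := by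
        rw [le_div_iff₀ h5]
        have h9 : 0 ≤ (K : ℝ) ^ ((1 : ℝ) / 2) := by positivity
        calc 2 * ((1 / 2 ^ D) * (K : ℝ) ^ ((1 : ℝ) / 2)) * 2 ^ (d i - 1)
            = ((2 : ℝ) ^ (d i - 1) * 2) / 2 ^ D * (K : ℝ) ^ ((1 : ℝ) / 2) := by ring
          _ ≤ 1 * (K : ℝ) ^ ((1 : ℝ) / 2) := by
              refine mul_le_mul_of_nonneg_right ?_ h9
              rw [div_le_one h6]
              exact h4
          _ = _ := one_mul _
      linarith
    · intro m hm
      rw [Finset.mem_filter, Finset.mem_Icc] at hm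
      exact ⟨hm.1.2, ⟨hm.1.1, hm.2.2⟩, hm.2.1⟩) N hN hNp
  have hS : Solutions p a d γ N =
      ((Pool.Agent.V11316.RG.Sol (Pool.Agent.V11316.RG.Reg p) a
        (fun i m => (m : ℤ) ≡ γ i [ZMOD d i]) N :
        Finset (ℕ × ℕ × (Fin k → ℕ))) : Set (ℕ × ℕ × (Fin k → ℕ))) := by
    ext s
    unfold Pool.Agent.V11316.RG.Sol
    simp only [Solutions, Set.mem_ofPred_eq, Finset.coe_filter, Finset.mem_product,
      Finset.mem_range, Fintype.mem_piFinset]
    constructor
    · rintro ⟨h2, h3, h4⟩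
      refine ⟨⟨by omega, by omega, fun i => ?_⟩, h2, h3, h4⟩
      have h5 : a i * s.2.2 i ≤ ∑ i, a i * s.2.2 i := Finset.single_le_sum
        (f := fun i => a i * s.2.2 i) (fun _ _ => Nat.zero_le _) (Finset.mem_univ i)
      have h6 : 1 * s.2.2 i ≤ a i * s.2.2 i := Nat.mul_le_mul_right _ (ha i)
      omega
    · rintro ⟨_, h2, h3, h4⟩
      exact ⟨h2, h3, h4⟩
  rw [hS, Set.ncard_coe_finset]
  refine ⟨Finset.finite_toSet _, ?_⟩
  have e : ((k + 1 : ℝ) / 2) = (k : ℝ) * (1 / 2) + 1 / 2 := by ring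
  rw [e]
  exact h1

end Pool.Agent.Results.MP_a3a416_nt.SummandsInClasses
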